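import Mathlib
import Pool.Agent.H.MP_8144ad_nt.C

open Filter Topology Finset

namespace Pool.Agent.Results.MP_f007e6_nt.Yes

def IsExp (q E : ℕ → ℕ) (x : ℝ) : Prop :=
  (∀ n, 1 ≤ n → E n < q n) ∧ (∀ N, ∃ n, N ≤ n ∧ E n + 1 ≠ q n) ∧
    HasSum (fun n => (E (n + 1) : ℝ) / ∏ i ∈ range (n + 1), (q (i + 1) : ℝ)) (x - ⌊x⌋)

noncomputable def Qs (q : ℕ → ℕ) (k n : ℕ) : ℝ :=
  ∑ p ∈ Icc 1 n, 1 / ∏ j ∈ range k, (q (p + j) : ℝ)

def Normal (q E : ℕ → ℕ) (k : ℕ) : Prop :=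
  ∀ B : Fin k → ℕ, Tendsto
    (fun n => (#{p ∈ Icc 1 n | ∀ j : Fin k, E (p + j) = B j} : ℝ) / Qs q k n) atTop (𝓝 1)

open Pool.Agent.H.MP_8144ad_nt in
theorem result (A : Set ℕ) : ∃ (x : ℝ) (q E : ℕ → ℕ), (∀ n, 1 ≤ n → 2 ≤ q n) ∧
    (∀ k, 1 ≤ k → Tendsto (Qs q k) atTop atTop) ∧ IsExp q E x ∧
    ∀ k, 1 ≤ k → (Normal q E k ↔ k ∈ A) := by
  obtain ⟨x, hx⟩ := expan qq (EE A) (EE_le _)
  refine ⟨x, qq, EE A, fun n _ => by have := EE_le A n; omega, fun k hk => ?_,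
    ⟨fun n _ => by have := EE_le A n; omega,
      fun N => ⟨N, le_rfl, by have := EE_le A N; omega⟩, hx⟩, fun k hk => ⟨fun h => ?_,
      fun h B => ?_⟩⟩
  · refine (mainF A k 1 0 (fun _ => 0) hk one_pos).1.congr fun n => ?_
    simp [Nat.mod_one, Qs]
  · by_contra hA
    have h1 := (mainF A k 1 0 (fun _ => 0) hk one_pos).2
    have h2 := tendsto_nhds_unique (h fun _ => 0) (by simpa [Nat.mod_one, Qs, hA] using h1)
    norm_num at h2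
  · simpa [Nat.mod_one, Qs, h] using (mainF A k 1 0 B hk one_pos).2

end Pool.Agent.Results.MP_f007e6_nt.Yes
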